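import Pool.Agent.Q26.RF.Rel3
import Pool.Agent.Q26.RF.Hirsch2

/-!
# MP_5b4d81_al, Q1: the answer is yes

For every finitely generated torsion-free nilpotent group `N` with a finite generating set `S` and
every subgroup `H` of `N`, there is a natural number `k ≤ h(N)` with
`F_{N,H,S}(n) ≈ (log n) ^ k`.

* `sepD H x` (in `Pool/Agent/Q26/RF/Rel3.lean`) is `D_N(H,x)`, the least order of a finite group
  `Q` with a surjection `φ : N → Q` such that `φ x ∉ φ H`;
* `sepF S H n` (same file) is `F_{N,H,S}(n)`, the maximum of `D_N(H,x)` over `x ∉ H` of word length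
  at most `n`, and `1` if there is no such `x`;
* `wordLen S x` (in `Pool/Agent/TH91/RF/Defs.lean`) is the word length;
* `PolySeries A m` (in `Pool/Agent/Q26/RF/Hirsch.lean`) says that there is a series from the trivial
  subgroup to `A`, each term normal in the next with cyclic quotient, with exactly `m` infinite
  quotients, and `hirsch N` (in `Pool/Agent/Q26/RF/Hirsch2.lean`) is the least `m` such that
  `PolySeries ⊤ m` (the value of `m` does not depend on the series, and a series exists).
-/

set_option autoImplicit false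

namespace Pool.Agent.Results.MP_5b4d81_al.PolylogarithmicSeparation

open Pool.Agent.TH91.RF Pool.Agent.Q26.RF

/-- `f ⪯ g` for functions of positive integers -/
def Dom (f g : ℕ → ℝ) : Prop := ∃ C : ℕ, 0 < C ∧ ∀ n : ℕ, 1 ≤ n → f n ≤ C * g (C * n)

/-- `f ≈ g` -/
def Equi (f g : ℕ → ℝ) : Prop := Dom f g ∧ Dom g f

theorem result (N : Type) [Group N] [Group.IsNilpotent N] (hfg : Group.FG N)
    (htf : ∀ x : N, ∀ n : ℕ, 0 < n → x ^ n = 1 → x = 1) (S : Set N) (hS : S.Finite)
    (hgen : Subgroup.closure S = ⊤) (H : Subgroup N) :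
    (∃ m, PolySeries (⊤ : Subgroup N) m) ∧
    ∃ k : ℕ, k ≤ hirsch N ∧ (∀ m, PolySeries (⊤ : Subgroup N) m → k ≤ m) ∧
      Equi (fun n => (sepF S H n : ℝ)) (fun n => (Real.log n) ^ k) := by
  obtain ⟨c⟩ := exists_completion N hfg htf
  have hser := exists_series N hfg htf
  obtain ⟨k, hk, h1, h2⟩ := rel_main hfg c hS hgen H
  have hall : ∀ m, PolySeries (⊤ : Subgroup N) m → k ≤ m :=
    fun m hm => hk.trans (finrank_le_hirsch c hm)
  refine ⟨hser, k, le_csInf hser hall, hall, h1, ?_⟩
  obtain ⟨C, hC, h3⟩ := h2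
  exact ⟨C, hC, h3⟩

end Pool.Agent.Results.MP_5b4d81_al.PolylogarithmicSeparation
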